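import Pool.Agent.N436.DF.Stm

/-! # DF/12: systems with pair edges only (helper862) -/

namespace Pool.Agent.N862.DF

open Finset Pool.Agent.N436.DF

variable {V : Type} [DecidableEq V]

/-- an auxiliary strict total order -/
def lt' (u v : V) : Prop := WellOrderingRel u v

theorem lt'_irr (u : V) : ¬ lt' u u := irrefl_of (WellOrderingRel : V → V → Prop) u

theorem lt'_asymm {u v : V} (h : lt' u v) : ¬ lt' v u := fun h' =>
  lt'_irr u (_root_.trans_of (WellOrderingRel : V → V → Prop) h h')

theorem lt'_tri {u v : V} (h : u ≠ v) : lt' u v ∨ lt' v u := by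
  rcases trichotomous_of (WellOrderingRel : V → V → Prop) u v with h1 | h1 | h1
  · exact Or.inl h1
  · exact absurd h1 h
  · exact Or.inr h1

open Classical in
/-- the number of units inside `Y` -/
noncomputable def hh (H : Hub V) (Y : Finset V) : ℤ :=
  ∑ u ∈ Y, ∑ v ∈ Y, if lt' u v then H.m u v else 0

open Classical in
theorem eM_eq {P : Par} {H : Hub V} (ok : Ok P H) (Y : Finset V) : eM H Y = 2 * hh H Y := by
  have h1 : eM H Y = ∑ u ∈ Y, ∑ v ∈ Y, ((if lt' u v then H.m u v else 0) +
      (if lt' v u then H.m u v else 0)) := by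
    unfold eM
    refine sum_congr rfl fun u _ => sum_congr rfl fun v _ => ?_
    by_cases huv : u = v
    · subst huv
      rw [if_neg (lt'_irr u), ok.m0]
      simp
    · rcases lt'_tri huv with h | h
      · rw [if_pos h, if_neg (lt'_asymm h), add_zero]
      · rw [if_pos h, if_neg (lt'_asymm h), zero_add]
  rw [h1]
  simp only [sum_add_distrib]
  have h2 : ∑ u ∈ Y, ∑ v ∈ Y, (if lt' v u then H.m u v else 0) = hh H Y := by
    rw [sum_comm]
    unfold hh
    refine sum_congr rfl fun u _ => sum_congr rfl fun v _ => ?_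
    rw [ok.msymm]
  rw [h2]
  unfold hh
  ring

theorem step1 {P : Par} {H : Hub V} {S : Finset V} (ok : Ok P H) (hyp : Hyp P H S)
    (hc : ∀ v ∈ S, ∀ i, 0 ≤ H.c i v) (hr : ∀ u ∈ S, ∀ v ∈ S, H.r u v = 0) (Y : Finset V)
    (hY : Y ⊆ S) : hh H Y ≤ ∑ v ∈ Y, (H.c true v + H.c false v + 1) := by
  rcases Y.eq_empty_or_nonempty with h0 | hne
  · subst h0
    simp [hh]
  have h1 := hyp Y hY hne
  have h2 : rho P H Y = 2 * ∑ v ∈ Y, wt P H v - P.a * eM H Y := by
    have h0 : ∑ u ∈ Y, ∑ v ∈ Y, ew P H u v = P.a * ∑ u ∈ Y, ∑ v ∈ Y, H.m u v := by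
      rw [mul_sum]
      refine sum_congr rfl fun u hu => ?_
      rw [mul_sum]
      refine sum_congr rfl fun v hv => ?_
      unfold ew
      rw [hr u (hY hu) v (hY hv)]
      ring
    unfold rho eM
    rw [h0]
  have h3 : ∑ v ∈ Y, wt P H v = P.a * ∑ v ∈ Y, (H.c true v + H.c false v + 1) -
      P.d * ∑ v ∈ Y, H.c false v := by
    rw [mul_sum, mul_sum, ← sum_sub_distrib]
    refine sum_congr rfl fun v _ => ?_
    unfold wt
    rw [P.hab]
    ring
  have h4 : 0 ≤ ∑ v ∈ Y, H.c false v := sum_nonneg fun v hv => hc v (hY hv) false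
  rw [eM_eq ok] at h2
  by_contra hcon
  rw [not_le] at hcon
  rw [h2, h3] at h1
  have ha : 0 < P.a := by linarith [P.hab, P.hb, P.hd]
  have h5 : P.a * (∑ v ∈ Y, (H.c true v + H.c false v + 1) + 1) ≤ P.a * hh H Y :=
    mul_le_mul_of_nonneg_left hcon ha.le
  have h6 : 0 ≤ P.d * ∑ v ∈ Y, H.c false v := mul_nonneg (by linarith [P.hd]) h4
  have := P.hab
  have := P.hd
  nlinarith

/-- the slots at `x` -/
def slots (H : Hub V) (x : V) : Finset (V × ℕ) :=
  {x} ×ˢ range (H.c true x + H.c false x + 1).toNat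

open Classical in
/-- the units inside `Y` -/
noncomputable def units (H : Hub V) (Y : Finset V) : Finset (Σ _ : V × V, ℕ) :=
  ((Y ×ˢ Y).filter fun p => lt' p.1 p.2).sigma fun p => range (H.m p.1 p.2).toNat

open Classical in
theorem units_card {P : Par} {H : Hub V} (ok : Ok P H) (Y : Finset V) :
    ((units H Y).card : ℤ) = hh H Y := by
  unfold units hh
  rw [card_sigma, sum_filter, sum_product]
  push_cast
  refine sum_congr rfl fun u _ => sum_congr rfl fun v _ => ?_
  split_ifs
  · rw [card_range, Int.toNat_of_nonneg (ok.m_nn u v)]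
  · rfl

theorem hall {P : Par} {H : Hub V} {S : Finset V} (ok : Ok P H) (hyp : Hyp P H S)
    (hc : ∀ v ∈ S, ∀ i, 0 ≤ H.c i v) (hr : ∀ u ∈ S, ∀ v ∈ S, H.r u v = 0) :
    ∃ f : ↥(units H S) → V × ℕ, Function.Injective f ∧
      ∀ x, f x ∈ slots H x.1.1.1 ∪ slots H x.1.1.2 := by
  classical
  rw [← Finset.all_card_le_biUnion_card_iff_exists_injective]
  intro A
  set Y : Finset V := A.biUnion fun x => {x.1.1.1, x.1.1.2} with hY
  have hmem : ∀ x : ↥(units H S), x.1.1.1 ∈ S ∧ x.1.1.2 ∈ S ∧ lt' x.1.1.1 x.1.1.2 ∧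
      x.1.2 < (H.m x.1.1.1 x.1.1.2).toNat := by
    intro x
    have := x.2
    unfold units at this
    rw [mem_sigma, mem_filter, mem_product, mem_range] at this
    exact ⟨this.1.1.1, this.1.1.2, this.1.2, this.2⟩
  have hYS : Y ⊆ S := by
    intro y hy
    rw [hY, mem_biUnion] at hy
    obtain ⟨x, _, hx⟩ := hy
    rw [mem_insert, mem_singleton] at hx
    rcases hx with rfl | rfl
    · exact (hmem x).1
    · exact (hmem x).2.1
  have h1 : A.card ≤ (units H Y).card := by
    rw [← card_map (Function.Embedding.subtype _)]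
    refine card_le_card ?_
    intro z hz
    rw [mem_map] at hz
    obtain ⟨x, hx, rfl⟩ := hz
    show (x : Σ _ : V × V, ℕ) ∈ units H Y
    unfold units
    rw [mem_sigma, mem_filter, mem_product, mem_range]
    refine ⟨⟨⟨?_, ?_⟩, (hmem x).2.2.1⟩, (hmem x).2.2.2⟩
    · rw [hY, mem_biUnion]
      exact ⟨x, hx, by simp⟩
    · rw [hY, mem_biUnion]
      exact ⟨x, hx, by simp⟩
  have h2 : (A.biUnion fun x => slots H x.1.1.1 ∪ slots H x.1.1.2) = Y.biUnion (slots H) := by
    ext z
    simp only [mem_biUnion, mem_union, hY]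
    constructor
    · rintro ⟨x, hx, hz | hz⟩
      · exact ⟨x.1.1.1, ⟨x, hx, by simp⟩, hz⟩
      · exact ⟨x.1.1.2, ⟨x, hx, by simp⟩, hz⟩
    · rintro ⟨y, ⟨x, hx, hy⟩, hz⟩
      rw [mem_insert, mem_singleton] at hy
      rcases hy with rfl | rfl
      · exact ⟨x, hx, Or.inl hz⟩
      · exact ⟨x, hx, Or.inr hz⟩
  have h3 : ((Y.biUnion (slots H)).card : ℤ) = ∑ v ∈ Y, (H.c true v + H.c false v + 1) := by
    rw [card_biUnion]
    · push_cast
      refine sum_congr rfl fun v hv => ?_
      unfold slots
      rw [card_product, card_singleton, one_mul, card_range, Int.toNat_of_nonneg]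
      have := hc v (hYS hv) true
      have := hc v (hYS hv) false
      linarith
    · intro x _ y _ hxy
      rw [Function.onFun, disjoint_left]
      intro z hz hz'
      unfold slots at hz hz'
      rw [mem_product, mem_singleton] at hz hz'
      exact hxy (hz.1.symm.trans hz'.1)
  rw [h2]
  have h4 := step1 ok hyp hc hr Y hYS
  have h5 := units_card ok Y
  have h6 : ((units H Y).card : ℤ) ≤ ((Y.biUnion (slots H)).card : ℤ) := by
    rw [h3, h5]
    exact h4
  exact h1.trans (by exact_mod_cast h6)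

theorem orient {P : Par} {H : Hub V} {S : Finset V} (ok : Ok P H) (hyp : Hyp P H S)
    (hc : ∀ v ∈ S, ∀ i, 0 ≤ H.c i v) (hr : ∀ u ∈ S, ∀ v ∈ S, H.r u v = 0) :
    ∃ q : V → V → ℤ, (∀ u v, 0 ≤ q u v) ∧ (∀ u ∈ S, ∀ v ∈ S, H.m u v ≤ q u v + q v u) ∧
      ∀ u ∈ S, ∑ v ∈ S, q u v ≤ H.c true u + H.c false u + 1 := by
  classical
  obtain ⟨f, hf, hfs⟩ := hall ok hyp hc hr
  set Q : V → V → Finset ↥(units H S) := fun u v =>
    univ.filter fun x => (x.1.1 = (u, v) ∨ x.1.1 = (v, u)) ∧ (f x).1 = u with hQ
  have hfend : ∀ x, (f x).1 = x.1.1.1 ∨ (f x).1 = x.1.1.2 := by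
    intro x
    have := hfs x
    unfold slots at this
    rw [mem_union, mem_product, mem_product, mem_singleton, mem_singleton] at this
    rcases this with h | h
    · exact Or.inl h.1
    · exact Or.inr h.1
  have hlt : ∀ u ∈ S, ∀ v ∈ S, lt' u v → H.m u v ≤ ((Q u v).card : ℤ) + (Q v u).card := by
    intro u hu v hv huv
    have h1 : (univ.filter fun x : ↥(units H S) => x.1.1 = (u, v)) ⊆ Q u v ∪ Q v u := by
      intro x hx
      rw [mem_filter] at hx
      rw [mem_union, hQ]
      simp only [mem_filter, mem_univ, true_and]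
      rcases hfend x with h | h
      · left
        exact ⟨Or.inl hx.2, by rw [h, hx.2]⟩
      · right
        exact ⟨Or.inr hx.2, by rw [h, hx.2]⟩
    have h2 : (H.m u v).toNat ≤ (univ.filter fun x : ↥(units H S) => x.1.1 = (u, v)).card := by
      rw [← card_range (H.m u v).toNat]
      have hmem : ∀ t ∈ range (H.m u v).toNat,
          (⟨(u, v), t⟩ : Σ _ : V × V, ℕ) ∈ units H S := by
        intro t ht
        unfold units
        rw [mem_sigma, mem_filter, mem_product]
        exact ⟨⟨⟨hu, hv⟩, huv⟩, ht⟩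
      have hinj : Function.Injective fun t : ℕ => (⟨(u, v), t⟩ : Σ _ : V × V, ℕ) := by
        intro t t' h
        simpa using h
      rw [← card_map (⟨_, hinj⟩ : ℕ ↪ Σ _ : V × V, ℕ),
        ← card_map (Function.Embedding.subtype _)]
      refine card_le_card ?_
      intro z hz
      rw [mem_map] at hz
      obtain ⟨t, ht, rfl⟩ := hz
      rw [mem_map]
      exact ⟨⟨_, hmem t ht⟩, by simp, rfl⟩
    have h3 := card_le_card h1
    have h4 := card_union_le (Q u v) (Q v u)
    have h5 : H.m u v = ((H.m u v).toNat : ℤ) := (Int.toNat_of_nonneg (ok.m_nn u v)).symm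
    rw [h5]
    exact_mod_cast (h2.trans h3).trans h4
  refine ⟨fun u v => ((Q u v).card : ℤ), fun u v => by positivity, ?_, ?_⟩
  · intro u hu v hv
    by_cases huv : u = v
    · subst huv
      rw [ok.m0]
      positivity
    · rcases lt'_tri huv with h | h
      · exact hlt u hu v hv h
      · have := hlt v hv u hu h
        rw [ok.msymm u v]
        linarith
  · intro u hu
    have h1 : (∑ v ∈ S, ((Q u v).card : ℤ)) = ((S.biUnion fun v => Q u v).card : ℤ) := by
      rw [card_biUnion]
      · push_cast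
        rfl
      · intro v _ w _ hvw
        rw [Function.onFun, disjoint_left]
        intro x hx hx'
        rw [hQ] at hx hx'
        simp only [mem_filter, mem_univ, true_and] at hx hx'
        rcases hx.1 with h | h <;> rcases hx'.1 with h' | h'
        · exact hvw (congrArg Prod.snd (h.symm.trans h'))
        · have e := h.symm.trans h'
          have e1 : u = w := congrArg Prod.fst e
          have e2 : v = u := congrArg Prod.snd e
          exact hvw (e2.trans e1)
        · have e := h.symm.trans h'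
          have e1 : v = u := congrArg Prod.fst e
          have e2 : u = w := congrArg Prod.snd e
          exact hvw (e1.trans e2)
        · exact hvw (congrArg Prod.fst (h.symm.trans h'))
    rw [h1]
    have h2 : (S.biUnion fun v => Q u v).card ≤ (slots H u).card := by
      refine card_le_card_of_injOn f ?_ hf.injOn
      intro x hx
      have hx' : x ∈ S.biUnion fun v => Q u v := hx
      rw [mem_biUnion] at hx'
      obtain ⟨v, _, hxv⟩ := hx'
      rw [hQ] at hxv
      simp only [mem_filter, mem_univ, true_and] at hxv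
      have h3 := hfs x
      unfold slots at h3
      rw [mem_union, mem_product, mem_product, mem_singleton, mem_singleton] at h3
      show f x ∈ slots H u
      unfold slots
      rw [mem_product, mem_singleton]
      rcases h3 with h3 | h3
      · refine ⟨hxv.2, ?_⟩
        rw [← h3.1, hxv.2] at h3
        exact h3.2
      · refine ⟨hxv.2, ?_⟩
        rw [← h3.1, hxv.2] at h3
        exact h3.2
    have h3 : ((slots H u).card : ℤ) = H.c true u + H.c false u + 1 := by
      unfold slots
      rw [card_product, card_singleton, one_mul, card_range, Int.toNat_of_nonneg]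
      have := hc u hu true
      have := hc u hu false
      linarith
    rw [← h3]
    exact_mod_cast h2

/-- a fixed point of a monotone map on the subsets of `S` -/
theorem fixpt (S : Finset V) (F : Finset V → Finset V) (hF : ∀ T, F T ⊆ S)
    (hm : ∀ T T', T ⊆ T' → F T ⊆ F T') : ∃ T, F T = T := by
  obtain ⟨T, hT, hmax⟩ := (S.powerset.filter fun T => T ⊆ F T).exists_max_image card
    ⟨∅, by simp⟩
  rw [mem_filter] at hT
  refine ⟨T, ?_⟩
  have h1 : F T ∈ S.powerset.filter fun T => T ⊆ F T := by
    rw [mem_filter, mem_powerset]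
    exact ⟨hF T, hm _ _ hT.2⟩
  exact (eq_of_subset_of_card_le hT.2 (hmax _ h1)).symm

theorem e0 : S_E0 := by
  classical
  intro V _ P H S ok hyp hc hr
  obtain ⟨q, hq0, hqm, hqs⟩ := orient ok hyp hc hr
  obtain ⟨T, hT⟩ := fixpt S (fun T => S.filter fun v => H.c true v < ∑ u ∈ T, q v u)
    (fun T => filter_subset _ _) (by
      intro T T' h v hv
      rw [mem_filter] at hv ⊢
      exact ⟨hv.1, lt_of_lt_of_le hv.2 (sum_le_sum_of_subset_of_nonneg h fun u _ _ => hq0 v u)⟩)
  have hTS : T ⊆ S := by
    rw [← hT]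
    exact filter_subset _ _
  have hTmem : ∀ v ∈ S, v ∈ T ↔ H.c true v < ∑ u ∈ T, q v u := by
    intro v hv
    constructor
    · intro h
      rw [← hT, mem_filter] at h
      exact h.2
    · intro h
      rw [← hT, mem_filter]
      exact ⟨hv, h⟩
  refine ⟨fun v => decide (v ∉ T), q, hq0, fun u hu v hv _ => hqm u hu v hv, ?_⟩
  intro u hu
  have hload : load H S (fun v => decide (v ∉ T)) q u =
      ∑ v ∈ S, if (u ∈ T ↔ v ∈ T) then 0 else q u v := by
    unfold load
    refine sum_congr rfl fun v hv => ?_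
    by_cases h1 : u ∈ T <;> by_cases h2 : v ∈ T <;> simp [h1, h2, hr u hu v hv]
  rw [hload]
  by_cases h1 : u ∈ T
  · have h2 := (hTmem u hu).1 h1
    have h3 := hqs u hu
    have h4 : (∑ v ∈ S, if (u ∈ T ↔ v ∈ T) then 0 else q u v) = ∑ v ∈ S \ T, q u v := by
      have : S \ T = S.filter fun v => v ∉ T := by
        ext v
        simp
      rw [this, sum_filter]
      refine sum_congr rfl fun v _ => ?_
      by_cases h5 : v ∈ T <;> simp [h1, h5]
    have h5 := sum_sdiff (f := fun v => q u v) hTS
    rw [h4]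
    simp only [h1, not_true_eq_false, decide_false]
    linarith
  · have h2 : ¬ H.c true u < ∑ v ∈ T, q u v := fun h => h1 ((hTmem u hu).2 h)
    have h4 : (∑ v ∈ S, if (u ∈ T ↔ v ∈ T) then 0 else q u v) = ∑ v ∈ T, q u v := by
      have : T = S.filter fun v => v ∈ T := by
        ext v
        simp only [mem_filter]
        exact ⟨fun h => ⟨hTS h, h⟩, fun h => h.2⟩
      conv_rhs => rw [this, sum_filter]
      refine sum_congr rfl fun v _ => ?_
      by_cases h5 : v ∈ T <;> simp [h1, h5]
    rw [h4]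
    simp only [h1, not_false_eq_true, decide_true]
    linarith

end Pool.Agent.N862.DF
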